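import Mathlib
import Pool.Agent.Work.MP_29211c_nt.Defs
import Pool.Agent.Work.MP_29211c_nt.Final

/-!
# MP_29211c_nt: Legendre-symbol determinants with `j ± k` and four parameters

Complete answer (both formulas hold) to Q1 and Q2, for every odd prime.
-/

set_option autoImplicit false

namespace Pool.Agent.Results.MP_29211c_nt.FourParameterDeterminants

open LegDet NumberField

/-- The determinant of the problem: `det [x + (j + σ k / p) + (j/p) y + (k/p) z + (jk/p) w]` for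
`0 ≤ j, k ≤ (p - 3) / 2`; `σ = 1` gives `D⁺`, `σ = -1` gives `D⁻`. -/
noncomputable def D (p : ℕ) [Fact p.Prime] (σ : ℤ) (x y z w : ℂ) : ℂ :=
  (Matrix.of fun j k : Fin ((p - 1) / 2) =>
    x + ((legendreSym p ((j : ℤ) + σ * (k : ℤ)) : ℤ) : ℂ) + ((legendreSym p (j : ℤ) : ℤ) : ℂ) * y
      + ((legendreSym p (k : ℤ) : ℤ) : ℂ) * z + ((legendreSym p ((j : ℤ) * (k : ℤ)) : ℤ) : ℂ) * w).det

theorem result (p : ℕ) [Fact p.Prime] (hp2 : p ≠ 2) :
    (p % 4 = 1 →
      ∃ (ε : ℝ) (a b a' b' : ℚ),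
        -- `ε` is the fundamental unit `> 1` of `ℚ(√p)`
        IsLeast (unitsGT p) ε ∧
        -- `ε ^ h(p) = a + b √p` and `ε ^ ((2 - (2/p)) h(p)) = a' + b' √p`
        ε ^ (classNumber (QS p)) = a + b * Real.sqrt p ∧
        ε ^ ((2 - legendreSym p 2) * (classNumber (QS p) : ℤ)) = a' + b' * Real.sqrt p ∧
        (∃ m : ℤ, 2 * a = m) ∧ (∃ m : ℤ, 2 * b = m) ∧ (∃ m : ℤ, 2 * a' = m) ∧ (∃ m : ℤ, 2 * b' = m) ∧
        ∀ x y z w : ℂ,
          D p 1 x y z w = ((legendreSym p 2 : ℤ) : ℂ) * 2 ^ ((p - 3) / 2) *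
              ((p * b - 2 * a) * x + (a - 2 * b) * (w * x - (y + 1) * (z + 1))) ∧
          D p (-1) x y z w = - a' * x - ((legendreSym p 2 : ℤ) : ℂ) * b' * (w * x - (y + 1) * (z + 1))) ∧
    (p % 4 = 3 → ∀ x y z w : ℂ,
        (3 < p → D p 1 x y z w = 2 ^ ((p - 3) / 2) * ((w * x - (y + 1) * (z + 1)) - 2 * x)) ∧
        D p (-1) x y z w = x) := by
  have hp0 : (0 : ℝ) < p := by exact_mod_cast (Fact.out : p.Prime).pos
  have hs : 0 < Real.sqrt p := Real.sqrt_pos.mpr hp0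
  have hs2 : Real.sqrt (p : ℝ) * Real.sqrt p = p := sqrt_sq' p
  have hone : ch p ((1 : ℤ) : ZMod p) = 1 := by simp [ch]
  refine ⟨fun hp1 => ?_, fun hp3 x y z w => ⟨fun h3 => ?_, ?_⟩⟩
  · obtain ⟨ψ, hψ, hτ, ε, hε, hf⟩ := cnf p hp1
    obtain ⟨a, b, ha, hb, hE, hN⟩ := unit_form p hp1 ψ hψ hτ ε hε hf
    have hε0 : 0 < ε := lt_trans one_pos hε.1.1
    have hE0 : (ε ^ classNumber (QS p)) ≠ 0 := by positivity
    -- complex versions
    have hEc : ((ε ^ classNumber (QS p) : ℝ) : ℂ) = (a : ℂ) + (b : ℂ) * ((Real.sqrt p : ℝ) : ℂ) := by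
      rw [hE]; push_cast; ring
    have hNc : ((ε ^ classNumber (QS p) : ℝ) : ℂ) * (- (a : ℂ) + (b : ℂ) * ((Real.sqrt p : ℝ) : ℂ)) = 1 := by
      rw [hE, ← Complex.ofReal_one, ← hN]; push_cast; ring
    have hfE : fR p ψ * ((ε ^ classNumber (QS p) : ℝ) : ℂ) = ((Real.sqrt p : ℝ) : ℂ) := by
      rw [hf, ← Complex.ofReal_mul]
      congr 1
      field_simp
    have hcm1 : ch p ((-1 : ℤ) : ZMod p) = 1 := by
      simp [ch, quadraticChar_neg_one_one p hp1]
    have hplus := plus_one p hp1 ψ hψ (a : ℂ) (b : ℂ) _ _ hτ hEc hNc hfE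
    have hD1 : ∀ x y z w : ℂ, D p 1 x y z w = ((legendreSym p 2 : ℤ) : ℂ) * 2 ^ ((p - 3) / 2) *
              ((p * b - 2 * a) * x + (a - 2 * b) * (w * x - (y + 1) * (z + 1))) := by
      intro x y z w
      have h := DD_eq p hp2 1 (Or.inl rfl) x y z w
      change DD p 1 x y z w = _
      rw [h, hone, hplus, hplus]
      ring
    have h2c : legendreSym p 2 = 1 ∨ legendreSym p 2 = -1 := by
      rw [leg_two]
      exact quadraticChar_dichotomy (two_ne p hp2)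
    rcases h2c with h2 | h2
    · refine ⟨ε, a, b, a, b, hε, hE, ?_, ha, hb, ha, hb, fun x y z w => ⟨hD1 x y z w, ?_⟩⟩
      · rw [h2]
        norm_num
        exact hE
      · have hminus := minus_one_pos p hp1 h2 ψ hψ (a : ℂ) (b : ℂ) _ _ hτ hEc hNc hfE
        have h := DD_eq p hp2 (-1) (Or.inr rfl) x y z w
        change DD p (-1) x y z w = _
        rw [h, hcm1, hminus, hminus, h2]
        push_cast
        ring
    · -- the cube
      obtain ⟨_, η, hη⟩ := hε.1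
      obtain ⟨m, n, _, hmn⟩ := integers_form p hp1 ((η ^ (3 * classNumber (QS p)) : (𝓞 (QS p))ˣ) : 𝓞 (QS p))
      have hpow : (((((η ^ (3 * classNumber (QS p)) : (𝓞 (QS p))ˣ) : 𝓞 (QS p)) : QS p)) : ℝ)
          = (ε ^ classNumber (QS p)) ^ 3 := by
        rw [← pow_mul, mul_comm (classNumber (QS p)) 3, ← hη]
        simp
      rw [hpow] at hmn
      have hcube : (((m / 2 - (a ^ 3 + 3 * a * b ^ 2 * p) : ℚ)) : ℝ)
          + ((n / 2 - (3 * a ^ 2 * b + p * b ^ 3) : ℚ) : ℝ) * Real.sqrt p = 0 := by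
        have h1 : (ε ^ classNumber (QS p)) ^ 3 = (a + b * Real.sqrt p) ^ 3 := by rw [hE]
        push_cast
        linear_combination h1 - hmn + (3 * (a : ℝ) * b ^ 2 + (b : ℝ) ^ 3 * Real.sqrt p) * hs2
      obtain ⟨hr1, hr2⟩ := rat_ind p hcube
      have hE3 : (ε ^ classNumber (QS p)) ^ 3 = ((m / 2 : ℚ) : ℝ) + ((n / 2 : ℚ) : ℝ) * Real.sqrt p := by
        rw [hmn]; push_cast; ring
      have hN3 : (((m / 2 : ℚ) : ℝ) + ((n / 2 : ℚ) : ℝ) * Real.sqrt p) *
          (- ((m / 2 : ℚ) : ℝ) + ((n / 2 : ℚ) : ℝ) * Real.sqrt p) = 1 := by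
        have e1 : ((m / 2 : ℚ) : ℝ) = (a : ℝ) ^ 3 + 3 * a * b ^ 2 * p := by
          have : (m / 2 : ℚ) = a ^ 3 + 3 * a * b ^ 2 * p := by linear_combination hr1
          rw [this]; push_cast; ring
        have e2 : ((n / 2 : ℚ) : ℝ) = 3 * (a : ℝ) ^ 2 * b + p * b ^ 3 := by
          have : (n / 2 : ℚ) = 3 * a ^ 2 * b + p * b ^ 3 := by linear_combination hr2
          rw [this]; push_cast; ring
        have e3 : ((m / 2 : ℚ) : ℝ) + ((n / 2 : ℚ) : ℝ) * Real.sqrt p = (a + b * Real.sqrt p) ^ 3 := by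
          rw [e1, e2]
          linear_combination (-(3 * (a : ℝ) * b ^ 2 + (b : ℝ) ^ 3 * Real.sqrt p)) * hs2
        have e4 : - ((m / 2 : ℚ) : ℝ) + ((n / 2 : ℚ) : ℝ) * Real.sqrt p = (- a + b * Real.sqrt p) ^ 3 := by
          rw [e1, e2]
          linear_combination (3 * (a : ℝ) * b ^ 2 - (b : ℝ) ^ 3 * Real.sqrt p) * hs2
        rw [e3, e4, ← mul_pow, hN, one_pow]
      have hE3c : ((ε ^ classNumber (QS p) : ℝ) : ℂ) ^ 3
          = ((m / 2 : ℚ) : ℂ) + ((n / 2 : ℚ) : ℂ) * ((Real.sqrt p : ℝ) : ℂ) := by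
        rw [← Complex.ofReal_pow, hE3]; push_cast; ring
      have hN3c : ((ε ^ classNumber (QS p) : ℝ) : ℂ) ^ 3
          * (- ((m / 2 : ℚ) : ℂ) + ((n / 2 : ℚ) : ℂ) * ((Real.sqrt p : ℝ) : ℂ)) = 1 := by
        rw [← Complex.ofReal_pow, hE3, ← Complex.ofReal_one, ← hN3]; push_cast; ring
      refine ⟨ε, a, b, m / 2, n / 2, hε, hE, ?_, ha, hb, ⟨m, by ring⟩, ⟨n, by ring⟩,
        fun x y z w => ⟨hD1 x y z w, ?_⟩⟩
      · rw [← hE3, h2]
        rw [← pow_mul, mul_comm (classNumber (QS p)) 3, ← zpow_natCast]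
        congr 1
      · have hminus := minus_one_neg p hp1 h2 ψ hψ _ _ _ _ hτ hE3c hN3c hfE
        have h := DD_eq p hp2 (-1) (Or.inr rfl) x y z w
        change DD p (-1) x y z w = _
        rw [h, hcm1, hminus, hminus, h2]
        push_cast
        ring
  · have h := DD_eq p hp2 1 (Or.inl rfl) x y z w
    change DD p 1 x y z w = _
    rw [h, hone, plus_three p h3 hp3, plus_three p h3 hp3]
    ring
  · have hcm1 : ch p ((-1 : ℤ) : ZMod p) = -1 := by
      simp [ch, quadraticChar_neg_one_three p hp3]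
    have h := DD_eq p hp2 (-1) (Or.inr rfl) x y z w
    change DD p (-1) x y z w = _
    have hpp := (Fact.out : p.Prime).two_le
    by_cases h3 : p = 3
    · rw [h, hcm1, minus_p3 p h3, minus_p3 p h3]; ring
    · rw [h, hcm1, minus_three p (by omega) hp3, minus_three p (by omega) hp3]; ring

end Pool.Agent.Results.MP_29211c_nt.FourParameterDeterminants
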